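import Pool.Agent.Y744.NB.Stm

/-!
# Project NB, job PAR: choice of the balls (helper909)
-/

set_option autoImplicit false

open MeasureTheory Set Filter Topology Metric

namespace Pool.Agent.Y909.NB.PAR

open Pool.Agent.Y744.NB

lemma hasSum_half (δ : ℝ) : HasSum (fun i : ℕ => δ * (1 / 2) ^ (i + 1)) δ := by
  have h := (hasSum_geometric_two).mul_left (δ / 2)
  have h1 : (fun i : ℕ => δ / 2 * (1 / 2 : ℝ) ^ i) = fun i : ℕ => δ * (1 / 2) ^ (i + 1) := by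
    funext i
    rw [pow_succ]
    ring
  rw [h1] at h
  have h2 : δ / 2 * 2 = δ := by ring
  rwa [h2] at h

theorem t : S_PAR := by
  intro N r η δ θ hN hr hη hδ hθ0 hθ
  have : Nonempty (Fin N) := ⟨⟨0, hN⟩⟩
  set V : ℝ := volume.real (ball (0 : E N) 1) with hV
  have hV0 : 0 ≤ V := measureReal_nonneg
  have hVe : volume (ball (0 : E N) 1) = ENNReal.ofReal V := by
    rw [hV, ofReal_measureReal]
  -- the radii
  have hex : ∀ i : ℕ, ∃ ε : ℝ, 0 < ε ∧ ε < r ∧ ε ≤ (1 / 2) ^ (i + 3) ∧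
      θ ε ≤ δ * (1 / 2) ^ (i + 1) * ((1 / 2) ^ (i + 2)) ^ N ∧
      ε ^ N * V ≤ η * (1 / 2) ^ (i + 1) := by
    intro i
    have h1 : ∀ᶠ ε in 𝓝[>] (0 : ℝ), 0 < ε := self_mem_nhdsWithin
    have h2 : ∀ᶠ ε in 𝓝[>] (0 : ℝ), ε < r :=
      nhdsWithin_le_nhds (Iio_mem_nhds hr)
    have h3 : ∀ᶠ ε in 𝓝[>] (0 : ℝ), ε < (1 / 2) ^ (i + 3) :=
      nhdsWithin_le_nhds (Iio_mem_nhds (by positivity))
    have h4 : ∀ᶠ ε in 𝓝[>] (0 : ℝ), θ ε < δ * (1 / 2) ^ (i + 1) * ((1 / 2) ^ (i + 2)) ^ N :=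
      hθ.eventually (Iio_mem_nhds (by positivity))
    have h5 : Tendsto (fun ε : ℝ => ε ^ N * V) (𝓝[>] 0) (𝓝 0) := by
      have h6 : Tendsto (fun ε : ℝ => ε ^ N * V) (𝓝 0) (𝓝 (0 ^ N * V)) :=
        ((continuous_pow N).mul continuous_const).tendsto 0
      rw [zero_pow (by omega), zero_mul] at h6
      exact h6.mono_left nhdsWithin_le_nhds
    have h6 : ∀ᶠ ε in 𝓝[>] (0 : ℝ), ε ^ N * V < η * (1 / 2) ^ (i + 1) :=
      h5.eventually (Iio_mem_nhds (by positivity))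
    obtain ⟨ε, ha, hb, hc, hd, he⟩ := (h1.and (h2.and (h3.and (h4.and h6)))).exists
    exact ⟨ε, ha, hb, hc.le, hd.le, he.le⟩
  choose ε hε0 hεr hε3 hεθ hεV using hex
  set e : E N := EuclideanSpace.single ⟨0, hN⟩ (1 : ℝ) with he
  have hen : ‖e‖ = 1 := by simp [he]
  have hpow : ∀ i : ℕ, (1 / 2 : ℝ) ^ i ≤ 1 := fun i => pow_le_one₀ (by norm_num) (by norm_num)
  have hp0 : ∀ i : ℕ, (0 : ℝ) < (1 / 2) ^ i := fun i => by positivity
  have hs1 : ∀ i : ℕ, (1 / 2 : ℝ) ^ (i + 1) = (1 / 2) ^ i / 2 := fun i => by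
    rw [pow_succ]; ring
  have hs2 : ∀ i : ℕ, (1 / 2 : ℝ) ^ (i + 2) = (1 / 2) ^ i / 4 := fun i => by
    rw [pow_add]; ring
  have hs3 : ∀ i : ℕ, (1 / 2 : ℝ) ^ (i + 3) = (1 / 2) ^ i / 8 := fun i => by
    rw [pow_add]; ring
  have hθn : ∀ i, 0 ≤ θ (ε i) := fun i => hθ0 _ (hε0 i)
  have hθ1 : ∀ i, θ (ε i) ≤ δ * (1 / 2) ^ (i + 1) := by
    intro i
    refine (hεθ i).trans ?_
    have h1 : ((1 / 2 : ℝ) ^ (i + 2)) ^ N ≤ 1 := pow_le_one₀ (hp0 _).le (hpow _)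
    have h2 : 0 ≤ δ * (1 / 2 : ℝ) ^ (i + 1) := by positivity
    calc δ * (1 / 2) ^ (i + 1) * ((1 / 2) ^ (i + 2)) ^ N ≤ δ * (1 / 2) ^ (i + 1) * 1 := by gcongr
      _ = _ := mul_one _
  have hθ2 : ∀ i, θ (ε i) / ((1 / 2) ^ (i + 2)) ^ N ≤ δ * (1 / 2) ^ (i + 1) := by
    intro i
    rw [div_le_iff₀ (by positivity)]
    exact hεθ i
  have hθ2n : ∀ i, 0 ≤ θ (ε i) / ((1 / 2) ^ (i + 2)) ^ N := fun i =>
    div_nonneg (hθn i) (by positivity)
  refine ⟨fun i => (1 / 2 : ℝ) ^ i • e, ε, fun i => ⟨hε0 i, hεr i⟩, ?_, ?_, ?_, ?_, ?_, ?_, ?_, ?_⟩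
  · refine squeeze_zero (fun i => (hε0 i).le) hε3 ?_
    exact (tendsto_add_atTop_iff_nat 3).2
      (tendsto_pow_atTop_nhds_zero_of_lt_one (by norm_num) (by norm_num))
  · intro i y hy
    rw [mem_closedBall, dist_eq_norm] at hy
    rw [mem_closedBall, dist_zero_right]
    have h1 : ‖y‖ ≤ ‖y - (1 / 2 : ℝ) ^ i • e‖ + ‖(1 / 2 : ℝ) ^ i • e‖ := by
      have := norm_add_le (y - (1 / 2 : ℝ) ^ i • e) ((1 / 2 : ℝ) ^ i • e)
      rwa [sub_add_cancel] at this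
    rw [norm_smul, hen, Real.norm_of_nonneg (hp0 i).le, mul_one] at h1
    have h2 := hε3 i
    have h3 := hpow (i + 3)
    have h4 := hpow i
    linarith
  · intro i j hij y hy
    rw [mem_closedBall, dist_eq_norm] at hy
    have h1 : ‖(1 / 2 : ℝ) ^ i • e - (1 / 2 : ℝ) ^ j • e‖ = |(1 / 2 : ℝ) ^ i - (1 / 2) ^ j| := by
      rw [← sub_smul, norm_smul, hen, mul_one, Real.norm_eq_abs]
    have h2 : ‖(1 / 2 : ℝ) ^ i • e - (1 / 2 : ℝ) ^ j • e‖ ≤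
        ‖y - (1 / 2 : ℝ) ^ i • e‖ + ‖y - (1 / 2 : ℝ) ^ j • e‖ := by
      have := norm_add_le ((1 / 2 : ℝ) ^ i • e - y) (y - (1 / 2 : ℝ) ^ j • e)
      rw [sub_add_sub_cancel, norm_sub_rev _ y] at this
      exact this
    rw [h1] at h2
    have h3 := hε3 i
    have h4 := hs3 i
    have h5 := hs2 i
    have h6 := hp0 i
    have h7 : (1 / 2 : ℝ) ^ i / 2 ≤ |(1 / 2 : ℝ) ^ i - (1 / 2) ^ j| := by
      rcases lt_or_gt_of_ne hij with h | h
      · have h8 : (1 / 2 : ℝ) ^ j ≤ (1 / 2) ^ (i + 1) :=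
          pow_le_pow_of_le_one (by norm_num) (by norm_num) h
        rw [hs1] at h8
        refine le_trans ?_ (le_abs_self _)
        linarith
      · have h8 : (1 / 2 : ℝ) ^ i ≤ (1 / 2) ^ (j + 1) :=
          pow_le_pow_of_le_one (by norm_num) (by norm_num) h
        rw [hs1] at h8
        refine le_trans ?_ (neg_le_abs _)
        linarith
    show (1 / 2 : ℝ) ^ (i + 2) ≤ ‖y - (1 / 2 : ℝ) ^ j • e‖
    linarith
  · calc volume (⋃ i, closedBall ((1 / 2 : ℝ) ^ i • e) (ε i))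
        ≤ ∑' i, volume (closedBall ((1 / 2 : ℝ) ^ i • e) (ε i)) := measure_iUnion_le _
      _ ≤ ∑' i : ℕ, ENNReal.ofReal (η * (1 / 2) ^ (i + 1)) := by
          refine ENNReal.tsum_le_tsum fun i => ?_
          rw [Measure.addHaar_closedBall _ _ (hε0 i).le, finrank_euclideanSpace,
            Fintype.card_fin, hVe, ← ENNReal.ofReal_mul (pow_nonneg (hε0 i).le _)]
          exact ENNReal.ofReal_le_ofReal (hεV i)
      _ = ENNReal.ofReal (∑' i : ℕ, η * (1 / 2) ^ (i + 1)) :=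
          (ENNReal.ofReal_tsum_of_nonneg (fun i => by positivity) (hasSum_half η).summable).symm
      _ = ENNReal.ofReal η := by rw [(hasSum_half η).tsum_eq]
  · exact Summable.of_nonneg_of_le hθn hθ1 (hasSum_half δ).summable
  · have h1 := Summable.tsum_le_tsum hθ1
      (Summable.of_nonneg_of_le hθn hθ1 (hasSum_half δ).summable) (hasSum_half δ).summable
    rwa [(hasSum_half δ).tsum_eq] at h1
  · exact Summable.of_nonneg_of_le hθ2n hθ2 (hasSum_half δ).summable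
  · have h1 := Summable.tsum_le_tsum hθ2
      (Summable.of_nonneg_of_le hθ2n hθ2 (hasSum_half δ).summable) (hasSum_half δ).summable
    rwa [(hasSum_half δ).tsum_eq] at h1

end Pool.Agent.Y909.NB.PAR
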